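import Pool.Agent.Lib.MP_743d1e_nt.FM.Defs

/-!
# Positivity for the curves `h + ε / h = e + T(x)`: definitions

`Ctx`: the analytic data. `T = lam * ∏ (p i) ^ (w i)`, `U = e + T`, `F = U ^ 2 - 4 ε`; the curve is
`y ^ 2 = F(x)`, `h = (U + y) / 2`. The real numbers `c i` are the coefficients of a real
combination of the symbols `{p i, h}`.
-/

set_option autoImplicit false

namespace MP743d1e.PO

open scoped BigOperators
open Polynomial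

/-- The admissible pairs `(ε, e)`: the polynomial `X ^ 2 - e * X + ε` is a product of cyclotomic
polynomials. -/
def Adm (ε e : ℤ) : Prop :=
  (ε = 1 ∧ (e = 2 ∨ e = -2 ∨ e = 1 ∨ e = -1 ∨ e = 0)) ∨ (ε = -1 ∧ e = 0)

/-- `T = lam * ∏ (p i) ^ (w i)`. -/
noncomputable def Tpol {r : ℕ} (p : Fin (r + 1) → ℂ[X]) (w : Fin (r + 1) → ℕ) (lam : ℂ) : ℂ[X] :=
  C lam * ∏ i, p i ^ w i

/-- `F = (e + T) ^ 2 - 4 ε`. -/
noncomputable def Fpol {r : ℕ} (p : Fin (r + 1) → ℂ[X]) (w : Fin (r + 1) → ℕ) (lam : ℂ)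
    (ε e : ℤ) : ℂ[X] :=
  (C (e : ℂ) + Tpol p w lam) ^ 2 - C (4 * (ε : ℂ))

/-- `q = T * ∑ c i * (p i)' / p i`. -/
noncomputable def qpol {r : ℕ} (p : Fin (r + 1) → ℂ[X]) (w : Fin (r + 1) → ℕ) (lam : ℂ)
    (c : Fin (r + 1) → ℝ) : ℂ[X] :=
  C lam * ∑ i, C ((c i : ℂ)) * derivative (p i) * p i ^ (w i - 1) *
    ∏ j ∈ Finset.univ.erase i, p j ^ w j

/-- The analytic data. The condition `hol` says that the differential `q dx / y` of the curve is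
holomorphic outside the zeros of `T` (it holds if all zeros of `F` that are not zeros of `T` are
simple). -/
structure Ctx where
  r : ℕ
  p : Fin (r + 1) → ℂ[X]
  w : Fin (r + 1) → ℕ
  lam : ℂ
  ε : ℤ
  e : ℤ
  c : Fin (r + 1) → ℝ
  monic : ∀ i, (p i).Monic
  deg_pos : ∀ i, 0 < (p i).natDegree
  simple : ∀ i z, (p i).eval z = 0 → (derivative (p i)).eval z ≠ 0
  cop : ∀ i j z, i ≠ j → (p i).eval z = 0 → (p j).eval z ≠ 0
  w_pos : ∀ i, 0 < w i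
  lam_ne : lam ≠ 0
  adm : Adm ε e
  sum_zero : ∑ i, c i * ((p i).natDegree : ℝ) = 0
  hol : ∀ z, (Fpol p w lam ε e).eval z = 0 → (Tpol p w lam).eval z ≠ 0 →
    (Fpol p w lam ε e).rootMultiplicity z ≤ 2 * (qpol p w lam c).rootMultiplicity z + 1
  alg : ∀ z, (Fpol p w lam ε e).eval z = 0 ∨ (Tpol p w lam).eval z = 0 → IsAlgebraic ℚ z

namespace Ctx

variable (D : Ctx)

/-- `T = lam * ∏ (p i) ^ (w i)`. -/
noncomputable def T : ℂ[X] := Tpol D.p D.w D.lam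

/-- `U = e + T`. -/
noncomputable def U : ℂ[X] := C (D.e : ℂ) + D.T

/-- `F = U ^ 2 - 4 ε`. -/
noncomputable def F : ℂ[X] := Fpol D.p D.w D.lam D.ε D.e

/-- The finite set of exceptional abscissas. -/
def S : Set ℂ := {z | D.F.eval z = 0 ∨ D.T.eval z = 0}

/-- `u = ∑ c i * log |p i|`. -/
noncomputable def u (z : ℂ) : ℝ := ∑ i, D.c i * Real.log ‖(D.p i).eval z‖

/-- `ρ = ∑ c i * (p i)' / p i`, so that `du = Re (ρ dx)`. -/
noncomputable def ρ (z : ℂ) : ℂ :=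
  ∑ i, (D.c i : ℂ) * ((derivative (D.p i)).eval z / (D.p i).eval z)

/-- The polynomial `q = T * ρ`. -/
noncomputable def q : ℂ[X] := qpol D.p D.w D.lam D.c

/-- `ξ = log |h|`, `h = (U + y) / 2`, as a function of the point `(z, y)` of the curve. -/
noncomputable def ξ (z y : ℂ) : ℝ := Real.log ‖(D.U.eval z + y) / 2‖

/-- `η = u d arg h - log |h| d arg f`, as a function of the point `(z, y)` of the curve and of the
tangent vector `v` at `z` (`d log h = (T' / y) dx`). -/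
noncomputable def η (z y v : ℂ) : ℝ :=
  D.u z * ((derivative D.T).eval z / y * v).im - D.ξ z y * (D.ρ z * v).im

/-- `κ = log |h| / y`; it does not depend on the choice of the root `y` of `F(z)`. -/
noncomputable def κ (z : ℂ) : ℂ :=
  (D.ξ z ((D.F.eval z) ^ (1 / 2 : ℂ)) : ℂ) / (D.F.eval z) ^ (1 / 2 : ℂ)

/-- All periods vanish along closed paths whose abscissas are transcendental. -/
def NoPeriods : Prop :=
  ∀ A B : ℝ → ℂ, ContDiff ℝ 1 A → ContDiff ℝ 1 B → (∀ θ, A (θ + 2 * Real.pi) = A θ) →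
    (∀ θ, B (θ + 2 * Real.pi) = B θ) → (∀ θ, Transcendental ℚ (A θ)) →
    (∀ θ, B θ ^ 2 + (D.ε : ℂ) = D.U.eval (A θ) * B θ) →
      ∫ θ in (0 : ℝ)..(2 * Real.pi), (D.u (A θ) * (deriv B θ / B θ).im -
        Real.log ‖B θ‖ * (D.ρ (A θ) * deriv A θ).im) = 0

/-- `ψ` is a primitive of `η` along all `C¹` paths on the curve `y ^ 2 = F(x)`, `x ∉ S`. -/
def PathPrim (ψ : ℂ → ℂ → ℝ) : Prop :=
  ∀ A Y : ℝ → ℂ, ContDiff ℝ 1 A → ContDiff ℝ 1 Y → (∀ t, A t ∉ D.S) →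
    (∀ t, Y t ^ 2 = D.F.eval (A t)) → ∀ a b : ℝ, a ≤ b →
      ψ (A b) (Y b) - ψ (A a) (Y a) = ∫ t in a..b, D.η (A t) (Y t) (deriv A t)

/-- Local data on the ball of radius `r` around `z₀`: a branch `Y` of the root of `F` and a
primitive `ψ` of `η`. -/
structure Loc (z₀ : ℂ) (r : ℝ) (Y : ℂ → ℂ) (ψ : ℂ → ℝ) : Prop where
  pos : 0 < r
  notS : ∀ z ∈ Metric.ball z₀ r, z ∉ D.S
  diff : DifferentiableOn ℂ Y (Metric.ball z₀ r)
  sq : ∀ z ∈ Metric.ball z₀ r, Y z ^ 2 = D.F.eval z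
  prim : ∀ z ∈ Metric.ball z₀ r, ∃ L : ℂ →L[ℝ] ℝ, HasFDerivAt ψ L z ∧ ∀ v, L v = D.η z (Y z) v

/-- `Ψ = ψ / y` for a global primitive `ψ` of `η` with `ψ(z, -y) = - ψ(z, y)`. -/
def IsPsi (Ψ : ℂ → ℂ) : Prop :=
  ∀ z₀, z₀ ∉ D.S → ∃ (r : ℝ) (Y : ℂ → ℂ) (ψ : ℂ → ℝ), D.Loc z₀ r Y ψ ∧
    ∀ z ∈ Metric.ball z₀ r, Ψ z = (ψ z : ℂ) / Y z

/-- `Θ = q * (Ψ - i u κ)`. -/
noncomputable def Θ (Ψ : ℂ → ℂ) (z : ℂ) : ℂ :=
  D.q.eval z * (Ψ z - Complex.I * ((D.u z : ℂ) * D.κ z))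

end Ctx

end MP743d1e.PO
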