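import Pool.Agent.Lib.MP_743d1e_nt.PO.Defs

/-!
# The curves `h + ε / h = e + T(x)` over `ℤ`: definitions

`T = lam * ∏ (p i) ^ (w i)` with distinct monic irreducible integral polynomials `p 0, ..., p r`.
-/

set_option autoImplicit false

namespace MP743d1e.PO

open scoped BigOperators
open Polynomial MP743d1e.FM

/-- Distinct monic irreducible integral polynomials `p 0, ..., p r` with multiplicities `w i > 0`
and integers `ε`, `e` with `(ε, e) = (1, 0), (1, ± 1), (1, ± 2)` or `(-1, 0)`. -/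
structure PDat (r : ℕ) where
  p : Fin (r + 1) → ℤ[X]
  w : Fin (r + 1) → ℕ
  ε : ℤ
  e : ℤ
  monic : ∀ i, (p i).Monic
  irr : ∀ i, Irreducible (p i)
  inj : Function.Injective p
  w_pos : ∀ i, 0 < w i
  adm : Adm ε e

namespace PDat

variable {r : ℕ} (D : PDat r)

/-- `T = lam * ∏ (p i) ^ (w i)`. -/
noncomputable def T (lam : ℤ) : ℤ[X] := C lam * ∏ i, D.p i ^ D.w i

/-- `U = e + T`. -/
noncomputable def U (lam : ℤ) : ℤ[X] := C D.e + D.T lam

/-- The discriminant `F = U ^ 2 - 4 ε`. -/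
noncomputable def F (lam : ℤ) : ℤ[X] := D.U lam ^ 2 - C (4 * D.ε)

/-- The polynomial `h ^ 2 - U * h + ε` of the curve (outer variable `h`, inner variable `x`). -/
noncomputable def P (lam : ℤ) : ℤ[X][X] := X ^ 2 - C (D.U lam) * X + C (C D.ε)

/-- Every complex zero of `F` that is not a zero of `T` is simple. -/
def Smooth (lam : ℤ) : Prop :=
  ∀ z : ℂ, aeval z (D.F lam) = 0 → aeval z (D.T lam) ≠ 0 →
    aeval z (derivative (D.F lam)) ≠ 0

/-- The genus in the case `Smooth`: `∑ deg p_i * ⌈w_i / 2⌉ - 1` if `e = ± 2`, otherwise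
`∑ deg p_i * w_i - 1`. -/
noncomputable def gen : ℕ :=
  if D.e ^ 2 = 4 * D.ε then (∑ i, (D.p i).natDegree * ((D.w i + 1) / 2)) - 1
  else (∑ i, (D.p i).natDegree * D.w i) - 1

/-- `β` is the element
`12 {p_{i + 1} ^ deg p_0 / p_0 ^ deg p_{i + 1}, h}`. -/
def IsSym {K : Type} [Field K] (x h : K) (i : Fin r) (β : K2 K) : Prop :=
  ∃ u hh : Kˣ, (u : K) * aeval x (D.p 0) ^ (D.p i.succ).natDegree =
    aeval x (D.p i.succ) ^ (D.p 0).natDegree ∧ (hh : K) = h ∧ β = 12 • sym u hh

/-- The conclusion: the curve is geometrically irreducible and exists over `ℚ` and over `ℂ`, its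
genus is `g ≤ gen`, `ℚ` is algebraically closed in its function field over `ℚ`, the `r` elements
`IsSym` of `K2` of this field are unramified at every discrete valuation, and `r - (gen - g)` of them
have linearly independent regulators. -/
structure Rank (lam : ℤ) (g : ℕ) : Prop where
  irr : ∀ (k : Type) [Field k] [CharZero k], Irreducible (mapK k (D.P lam))
  exQ : ∃ (K : Type) (_ : Field K) (_ : Algebra ℚ K) (x h : K), IsCurveP ℚ K (D.P lam) x h
  exC : ∃ (K : Type) (_ : Field K) (_ : Algebra ℂ K) (x h : K), IsCurveP ℂ K (D.P lam) x h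
  genus : ∀ (K : Type) [Field K] [Algebra ℂ K] (x h : K), IsCurveP ℂ K (D.P lam) x h →
    HasGenus K g
  le : g ≤ D.gen
  const : ∀ (K : Type) [Field K] [Algebra ℚ K] (x h : K), IsCurveP ℚ K (D.P lam) x h → ConstQ K
  rank : ∀ (K : Type) [Field K] [Algebra ℚ K] (x h : K), IsCurveP ℚ K (D.P lam) x h →
    ∃ α : Fin r → K2 K, (∀ i, D.IsSym x h i (α i) ∧ Unramified (α i)) ∧
      ∃ f : Fin (r - (D.gen - g)) → Fin r, Function.Injective f ∧ Indep fun k => α (f k)

/-- `T` splits over `ℤ` and the multiplicities are `1` (or `1`, `2` if `e = ± 2`). -/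
def Split : Prop :=
  (∀ i, (D.p i).natDegree = 1) ∧
    ((∀ i, D.w i = 1) ∨ (D.e ^ 2 = 4 * D.ε ∧ ∀ i, D.w i = 1 ∨ D.w i = 2))

end PDat

end MP743d1e.PO
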