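import Pool.Agent.Lib.MP_743d1e_nt.PO.PDefs
import Pool.Agent.Lib.MP_743d1e_nt.Kae
import Pool.Agent.Lib.MP_743d1e_nt.Const

/-!
# Exactness: all the symbols `{f, h}`, `f ∈ ℚ(x)`, that are unramified over `ℚ`

Module `XXX` = `PO/XXX.lean`, theorem `MP743d1e.PO.specXXX`, auxiliary lemmas in the namespace
`MP743d1e.PO.XXXM`.
-/

set_option autoImplicit false

namespace MP743d1e.PO

open scoped BigOperators
open Polynomial MP743d1e.FM MP743d1e.Integ

/-- The valuation is trivial on `ℚ` (it is a closed point of the curve over `ℚ`). -/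
def Geo {K : Type} [Field K] [Algebra ℚ K] (v : DVal K) : Prop :=
  ∀ c : Kˣ, (∃ r : ℚ, (c : K) = algebraMap ℚ K r) → v.ord c = 0

/-- The tame symbols at all closed points of the curve over `ℚ` are torsion. -/
def TorTame {K : Type} [Field K] [Algebra ℚ K] (β : K2 K) : Prop :=
  ∀ v : DVal K, Geo v → ∃ N : ℕ, 0 < N ∧ N • tame v β = 0

/-- The condition on `lam`: two primes `q ≥ 5` with `q (q - 1)` and the exponent of `q` in `lam`
prime to the degree of `T`. -/
def PDat.TwoPrimes {r : ℕ} (D : PDat r) (lam : ℤ) : Prop :=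
  ∃ q₁ q₂ : ℕ, q₁ ≠ q₂ ∧ ∀ q : ℕ, q = q₁ ∨ q = q₂ → q.Prime ∧ 5 ≤ q ∧
    Nat.Coprime (q * (q - 1)) (D.T lam).natDegree ∧
    Nat.Coprime (padicValInt q lam) (D.T lam).natDegree

/-- Every element `{f, h}`, `f ∈ ℚ(x)`, with torsion tame symbols has a positive multiple which is an
integral combination of the symbols `IsSym`. -/
def PDat.Exact {r : ℕ} (D : PDat r) (lam : ℤ) : Prop :=
  ∀ (K : Type) [Field K] [Algebra ℚ K] (x h : K), IsCurveP ℚ K (D.P lam) x h →
    ∀ α : Fin r → K2 K, (∀ i, D.IsSym x h i (α i)) → ∀ f hh : Kˣ, (hh : K) = h →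
      (f : K) ∈ IntermediateField.adjoin ℚ {x} → TorTame (sym f hh) →
        ∃ N : ℕ, 0 < N ∧ N • sym f hh ∈ AddSubgroup.closure (Set.range α)

/-- PLP. The closed points above an irreducible polynomial.

Proof. Either: `O = ℚ[x]` (as a subring of `K`), `B` its integral closure in `K` (a Dedekind domain,
as in `PlaceQ.lean`), `P` a maximal ideal of `B` which contains `p(x)` (not a unit of `B`), `v` the
valuation of `P` (`PlaceQ.dval`). Or: the `p`-adic valuation of `ℚ(x)` and `PC/EXV.lean`. For the last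
statement use `a p + b q = 1`. -/
def SpecPLP : Prop :=
  ∀ (K : Type) [Field K] [Algebra ℚ K] (x : K), Transcendental ℚ x →
    FiniteDimensional (IntermediateField.adjoin ℚ {x}) K → ∀ p : ℚ[X], Irreducible p →
      ∃ v : DVal K, Geo v ∧ ∀ q : ℚ[X], ∀ u : Kˣ, (u : K) = aeval x q →
        0 ≤ v.ord u ∧ (p ∣ q → 0 < v.ord u) ∧ (¬ p ∣ q → v.ord u = 0)

/-- PLI. A closed point above `x = ∞`. -/
def SpecPLI : Prop :=
  ∀ (K : Type) [Field K] [Algebra ℚ K] (x : K), Transcendental ℚ x →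
    FiniteDimensional (IntermediateField.adjoin ℚ {x}) K →
      ∃ (v : DVal K) (n : ℕ), Geo v ∧ 0 < n ∧ ∀ q : ℚ[X], ∀ u : Kˣ, (u : K) = aeval x q →
        v.ord u = -(n * q.natDegree : ℕ)

/-- FIN. `K` is finite over `ℚ(x)`. (`h` is integral over `ℚ(x)`.) -/
def SpecFIN : Prop :=
  ∀ (r : ℕ) (D : PDat r) (lam : ℤ), lam ≠ 0 → ∀ (K : Type) [Field K] [Algebra ℚ K] (x h : K),
    IsCurveP ℚ K (D.P lam) x h → FiniteDimensional (IntermediateField.adjoin ℚ {x}) K

/-- RSF. The residue field at a point where a power of `h` is one.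

Proof. `O = {f | NN v f}` is a valuation subring (`PC.EXVM.O`), `k` (first: its residue field; then
an algebraic closure of it) has characteristic zero because `v` is trivial on `ℚ`; `a`, `z` are the
residue classes of `x` and `h` (`h` is integral over `ℤ[x]`, see `PO/INTP.lean`). -/
def SpecRSF : Prop :=
  ∀ (r : ℕ) (D : PDat r) (lam : ℤ), lam ≠ 0 → ∀ (K : Type) [Field K] [Algebra ℚ K] (x h : K),
    IsCurveP ℚ K (D.P lam) x h → ∀ v : DVal K, Geo v → ∀ p : ℚ[X], Pos v (aeval x p) → NN v x →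
      ∀ M : ℕ, 0 < M → Pos v (h ^ M - 1) →
        ∃ (k : Type) (_ : Field k) (_ : CharZero k) (_ : IsAlgClosed k) (a z : k),
          eval₂ (algebraMap ℚ k) a p = 0 ∧ z ^ M = 1 ∧
          z ^ 2 - aeval a (D.U lam) * z + (D.ε : k) = 0

/-- UNI. A root of unity `c ≠ 1` with `c - 1` of positive order above `q` has order a power of `q`.

Proof. Let `n = q ^ a * n'` be the order of `c`, `c' = c ^ (q ^ a)` of order `n'`, `c' - 1` has positive
order. If `n' > 1`: `∏_{j < n', j ≠ 0} (1 - c' ^ j) = n'` has order zero, but the factor `j = 1` has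
positive order and the others are integral. -/
def SpecUNI : Prop :=
  ∀ (F : Type) [Field F] [CharZero F] (w : DVal F) (q : ℕ), q.Prime → Pos w (q : F) →
    ∀ c : F, (∃ M : ℕ, 0 < M ∧ c ^ M = 1) → Pos w (c - 1) → ∃ a : ℕ, c ^ q ^ a = 1

/-- RAM. Ramification in cyclotomic fields.

Proof. `IsCyclotomicExtension.Rat.ramificationIdx_eq`, `ramificationIdx_eq_of_not_dvd`
(`Mathlib/NumberTheory/NumberField/Cyclotomic/Ideal.lean`) and `PlaceQ.dval` for a prime of the ring
of integers above `q`. -/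
def SpecRAM : Prop :=
  ∀ (n : ℕ) [NeZero n] (F : Type) [Field F] [NumberField F] [IsCyclotomicExtension {n} ℚ F]
    (q : ℕ), q.Prime → ∃ (w : DVal F) (e : ℕ), 0 < e ∧ (∃ b : ℕ, e ∣ (q * (q - 1)) ^ b) ∧
      ∀ (m : ℤ) (c : Fˣ), (c : F) = m → w.ord c = e * padicValInt q m

/-- IRQ. If `U(a) = z + ε / z` for a root of unity `z` and `T(a) ≠ 0` then the degree of `a` over `ℚ` is
`deg T` times the degree of `U(a)` (two primes; UNI, RAM, `PC/EXV`, `PC/EBD`).

Proof. `T(a) z = z ^ 2 - e z + ε = (z - n₁) (z - n₂)` with roots of unity `n₁`, `n₂` of order dividing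
`12`. `F = ℚ(roots of unity of order 12 M) ⊆ k` contains `z`, `n₁`, `n₂`. Let `w` be the valuation of RAM
for `q = q₁` or `q₂`. If `w (z / n₁ - 1) > 0` or `w (z / n₂ - 1) > 0` for both primes, then (UNI) one of
`z / n₁`, `z / n₂` has order a power of `q₁` and one of them a power of `q₂`; both are `≠ 1` as `T(a) ≠ 0`,
so they are not the same and not equal, but `(n₂ / n₁) ^ 12 = 1` and `q ≥ 5`, contradiction. So for one
of the primes `w (T(a)) = 0`. Let `E = F(a)`, `w'` an extension of `w` to `E` of index `e'` (EXV). If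
`w' (a) ≥ 0` then `w' (T(a)) ≥ w' (lam) > 0` (if `deg T ≥ 2`), impossible. So `w' (a) < 0`,
`0 = w' (T(a)) = w' (lam) + deg T * w' (a)`, `deg T ∣ e' * e * v_q (lam)`, `deg T ∣ e' ≤ [E : F]`
(EBD). So `T(X) + e - U(a)` is irreducible over `F`, all the more over `ℚ(U(a))`, and
`[ℚ(a) : ℚ] = [ℚ(a) : ℚ(U(a))] [ℚ(U(a)) : ℚ]`. -/
def SpecIRQ : Prop :=
  ∀ (r : ℕ) (D : PDat r) (lam : ℤ), lam ≠ 0 → D.TwoPrimes lam →
    ∀ (k : Type) [Field k] [CharZero k] [IsAlgClosed k] (a z : k) (M : ℕ), 0 < M → z ^ M = 1 →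
      z ^ 2 - aeval a (D.U lam) * z + (D.ε : k) = 0 → aeval a (D.T lam) ≠ 0 →
        (minpoly ℚ a).natDegree = (D.T lam).natDegree * (minpoly ℚ (aeval a (D.U lam))).natDegree

/-- The elements `f` such that a positive multiple of `{f, h}` is `{c, h}` with a constant `c`. -/
def MC {K : Type} [Field K] [Algebra ℚ K] (hh f : Kˣ) : Prop :=
  ∃ (N : ℕ) (c : Kˣ), 0 < N ∧ (∃ r : ℚ, (c : K) = algebraMap ℚ K r) ∧ N • sym f hh = sym c hh

/-- STE. `{X ^ n - 1, X}`, cyclotomic polynomials and products of them.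

Proof. `n {1 - h ^ n, h} = {1 - h ^ n, h ^ n} = 0`, `2 {-1, h} = 0`. By induction on `n` (`X ^ n - 1` is the
product of the cyclotomic polynomials) the same for `cyclotomic n`. If all the roots of the monic
`G ∈ ℚ[X]` in an algebraically closed field are roots of unity then `G` is a product of cyclotomic
polynomials (each irreducible factor is the minimal polynomial of a root of unity). -/
def SpecSTE : Prop :=
  ∀ (K : Type) [Field K] [Algebra ℚ K] (hh : Kˣ), Transcendental ℚ (hh : K) →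
    ∀ (k : Type) [Field k] [CharZero k] [IsAlgClosed k] (G : ℚ[X]), G.Monic →
      (∀ z : k, aeval z G = 0 → ∃ M : ℕ, 0 < M ∧ z ^ M = 1) → ∀ u : Kˣ, (u : K) = aeval (hh : K) G →
        ∃ N : ℕ, 0 < N ∧ N • sym u hh = 0

/-- HTR. `h` is transcendental. (Otherwise `U(x) = h + ε / h` and `x` are algebraic.) -/
def SpecHTR : Prop :=
  ∀ (r : ℕ) (D : PDat r) (lam : ℤ), lam ≠ 0 → ∀ (K : Type) [Field K] [Algebra ℚ K] (x h : K),
    IsCurveP ℚ K (D.P lam) x h → Transcendental ℚ h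

/-- PSM. Irreducible polynomials `p` prime to `T` whose point is one where a power of `h` is one
(IRQ, STE, HTR).

Proof. Let `Ψ = minpoly ℚ (U(a))`, `d` its degree. `p ∣ Ψ(U)` in `ℚ[X]` and both have degree `d * deg T` by IRQ
(`p` is up to a constant `minpoly ℚ a`; `T(a) ≠ 0` because `p` does not divide `T`), so
`p = c * Ψ(U)`. `G = X ^ d Ψ(X + ε / X)` (a monic polynomial of degree `2 d`, e.g.
`∑ Ψ_i (X ^ 2 + ε) ^ i X ^ (d - i)`) has only roots of unity as roots: if `G(y) = 0` then `y ≠ 0`,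
`y + ε / y` is conjugate to `U(a) = z + ε / z` over `ℚ`, so `y` or `ε / y` is conjugate to `z`. By STE
`{G(h), h}` is torsion, `G(h) = h ^ d Ψ(U(x))`, `2 {h, h} = 0`. -/
def SpecPSM : Prop :=
  ∀ (r : ℕ) (D : PDat r) (lam : ℤ), lam ≠ 0 → D.TwoPrimes lam →
    ∀ (K : Type) [Field K] [Algebra ℚ K] (x h : K), IsCurveP ℚ K (D.P lam) x h →
      ∀ hh : Kˣ, (hh : K) = h → ∀ p : ℚ[X], Irreducible p →
        (∃ (k : Type) (_ : Field k) (_ : CharZero k) (_ : IsAlgClosed k) (a z : k) (M : ℕ),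
          0 < M ∧ eval₂ (algebraMap ℚ k) a p = 0 ∧ z ^ M = 1 ∧
          z ^ 2 - aeval a (D.U lam) * z + (D.ε : k) = 0 ∧ aeval a (D.T lam) ≠ 0) →
        ∀ u : Kˣ, (u : K) = aeval x p → MC hh u

/-- FAC. Reduction to `f = c * ∏ (p i) ^ (n i)`.

Proof. `f = A(x) / B(x)`, factor `A B` into irreducible polynomials; `f = c ∏ p ^ (n_p)`. If `p` with
`n_p ≠ 0` is not (up to a constant) one of the `p i` (irreducible over `ℚ` by Gauss) then at the point of PLP
`ord h = 0` (`h` and `ε / h` are integral over `ℤ[x]`), `ord f = n_p ord p(x) ≠ 0`, the tame unit of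
`{f, h}` is `h ^ (- ord f)`, and `N • tame = 0` gives `Pos v (h ^ M - 1)`, `M = N |ord f|`. By RSF and PSM
`MC hh p(x)`. So, `N` a common multiple, `N {f, h} = N ∑ n i {p i, h} + {c, h}`. -/
def SpecFAC : Prop :=
  ∀ (r : ℕ) (D : PDat r) (lam : ℤ), lam ≠ 0 → D.TwoPrimes lam →
    ∀ (K : Type) [Field K] [Algebra ℚ K] (x h : K), IsCurveP ℚ K (D.P lam) x h →
      ∀ f hh : Kˣ, (hh : K) = h → (f : K) ∈ IntermediateField.adjoin ℚ {x} →
        TorTame (sym f hh) → ∀ P : Fin (r + 1) → Kˣ, (∀ i, (P i : K) = aeval x (D.p i)) →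
          ∃ (N : ℕ) (n : Fin (r + 1) → ℤ) (c : Kˣ), 0 < N ∧
            (∃ s : ℚ, (c : K) = algebraMap ℚ K s) ∧
            N • sym f hh = ∑ i, n i • sym (P i) hh + sym c hh

/-- INF. The condition at infinity (no condition on `lam`).

Proof. (1) At the point `v` of PLI: `ord h = ± n m`, `m = deg T` (`h + ε / h = U(x)` has order `- n m`), replace
`h` by `ε / h` if necessary: `ord h = - n m`, `h / (lam x ^ m)` is a one-unit. `f = c ∏ (P i) ^ (n i)` is
`c x ^ A` times a one-unit, `A = ∑ n i deg p_i`. The tame symbol is up to sign the class of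
`c ^ (- n m) * lam ^ (n A)`, a rational number (`v` is trivial on `ℚ`), so it is `± 1`:
`c ^ m = ± lam ^ A`. (2) `T(x) h = h ^ 2 - e h + ε`, so `{T(x), h}` is torsion (STE), i.e.
`{lam, h} = - ∑ w i {P i, h}` up to torsion. (3) So `m d_0 {f, h} = d_0 (m ∑ n i {P i, h} + A {lam, h})`
up to torsion, `= d_0 ∑ (m n i - A w i) {P i, h}`, and `∑ (m n i - A w i) d_i = m A - A m = 0`, so this is
`∑_{i > 0} (m n i - A w i) (d_0 {P i, h} - d_i {P 0, h})`, a combination of the `α i` divided by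
`12`. -/
def SpecINF : Prop :=
  ∀ (r : ℕ) (D : PDat r) (lam : ℤ), lam ≠ 0 →
    ∀ (K : Type) [Field K] [Algebra ℚ K] (x h : K), IsCurveP ℚ K (D.P lam) x h →
      ∀ α : Fin r → K2 K, (∀ i, D.IsSym x h i (α i)) → ∀ hh : Kˣ, (hh : K) = h →
        ∀ P : Fin (r + 1) → Kˣ, (∀ i, (P i : K) = aeval x (D.p i)) →
          ∀ (n : Fin (r + 1) → ℤ) (c : Kˣ), (∃ s : ℚ, (c : K) = algebraMap ℚ K s) →
            TorTame (∑ i, n i • sym (P i) hh + sym c hh) →
              ∃ N : ℕ, 0 < N ∧ N • (∑ i, n i • sym (P i) hh + sym c hh) ∈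
                AddSubgroup.closure (Set.range α)

/-- EXA (FAC, INF). -/
def SpecEXA : Prop :=
  ∀ (r : ℕ) (D : PDat r) (lam : ℤ), lam ≠ 0 → D.TwoPrimes lam → D.Exact lam

end MP743d1e.PO
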